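import Pool.Agent.R99.Mem.Ord

namespace Pool.Agent.Results.MP_674d90_lc.SafetySeparation

open Pool.Agent.R99.Mem

/-- `W` is a safety condition: for some set `P` of forbidden finite words, `W` consists of the
sequences none of whose finite prefixes lies in `P`. -/
def IsSafety {C : Type} (W : Set (ℕ → C)) : Prop :=
  ∃ P : Set (List C), W = {f | ∀ n, (List.range n).map f ∉ P}

theorem safety : IsSafety W₀ := by
  refine ⟨{l | l.foldl stp s0 = D.dead}, ?_⟩
  ext f
  have h : ∀ n, run stp s0 f n = ((List.range n).map f).foldl stp s0 := by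
    intro n
    induction n with
    | zero => rfl
    | succ n ih =>
      rw [List.range_succ, List.map_append, List.foldl_append, ← ih]
      rfl
  constructor
  · intro hf n hn
    exact hf n ((h n).trans hn)
  · intro hf n hn
    exact hf n ((h n).symm.trans hn)

/-- Q1: yes. -/
theorem result : ∃ (C : Type) (_ : Finite C) (_ : Nonempty C) (W : Set (ℕ → C)),
    IsSafety W ∧ GenMem W < ⊤ ∧ ChrMem W = ⊤ :=
  ⟨Col, inferInstance, ⟨Col.x⟩, W₀, safety, genMem_lt (by norm_num) W₀_gen, chrMem_eq W₀_chr⟩

end Pool.Agent.Results.MP_674d90_lc.SafetySeparation
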